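import Pool.Agent.helper25.OAU.Spec
import Pool.Agent.helper89.AUT.MEM

/-! # Project oau (MP_d58e27_lc), module OMEM: area universality for oriented triples reduces
to `UETR` -/

set_option autoImplicit false

namespace Pool.Agent.helper25.OAU

open N68a2faeb N793a5b8e
open Pool.Agent.helper56.SGE hiding Pt
open Pool.Agent.helper56.SGE.QSys
open Pool.Agent.helper98.Tsei Pool.Agent.H54.PT
open Pool.Agent.helper14.AU

/-- the conditions on the entries -/
def OMEM_sys (w : List Bool) : Prop :=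
  (∀ a < MEM_Z w / 3, MEM_N w (3 * a) ≠ MEM_N w (3 * a + 1) ∧
    MEM_N w (3 * a + 1) ≠ MEM_N w (3 * a + 2) ∧ MEM_N w (3 * a) ≠ MEM_N w (3 * a + 2)) ∧
  (∀ a < MEM_Z w / 3, ∀ b < MEM_Z w / 3,
    ((MEM_N w (3 * a) = MEM_N w (3 * b) ∨ MEM_N w (3 * a) = MEM_N w (3 * b + 1) ∨
        MEM_N w (3 * a) = MEM_N w (3 * b + 2)) ∧
      (MEM_N w (3 * a + 1) = MEM_N w (3 * b) ∨ MEM_N w (3 * a + 1) = MEM_N w (3 * b + 1) ∨
        MEM_N w (3 * a + 1) = MEM_N w (3 * b + 2)) ∧
      (MEM_N w (3 * a + 2) = MEM_N w (3 * b) ∨ MEM_N w (3 * a + 2) = MEM_N w (3 * b + 1) ∨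
        MEM_N w (3 * a + 2) = MEM_N w (3 * b + 2))) → a = b)

theorem OMEM_verts (s t : ℕ × ℕ × ℕ) : (∀ i ∈ verts s, i ∈ verts t) ↔
    (s.1 = t.1 ∨ s.1 = t.2.1 ∨ s.1 = t.2.2) ∧ (s.2.1 = t.1 ∨ s.2.1 = t.2.1 ∨ s.2.1 = t.2.2) ∧
      (s.2.2 = t.1 ∨ s.2.2 = t.2.1 ∨ s.2.2 = t.2.2) := by
  simp [verts]

theorem OMEM_isOSystem (w : List Bool) : IsOSystem (MEM_L w) ↔ OMEM_sys w := by
  unfold MEM_L MEM_T OMEM_sys
  constructor
  · intro h
    refine ⟨fun a ha => ?_, fun a ha b hb hab => ?_⟩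
    · exact h.ne (MEM_N w (3 * a), MEM_N w (3 * a + 1), MEM_N w (3 * a + 2))
        (List.mem_map.2 ⟨a, List.mem_range.2 ha, rfl⟩)
    · have h1 := (List.nodup_map_iff_inj_on List.nodup_range).1 h.nodup
      refine h1 a (List.mem_range.2 ha) b (List.mem_range.2 hb) ?_
      refine h.uniq _ (List.mem_map.2 ⟨a, List.mem_range.2 ha, rfl⟩) _
        (List.mem_map.2 ⟨b, List.mem_range.2 hb, rfl⟩) ?_
      rw [OMEM_verts]
      exact hab
  · rintro ⟨h1, h2⟩
    constructor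
    · intro t ht
      obtain ⟨a, ha, rfl⟩ := List.mem_map.1 ht
      exact h1 a (List.mem_range.1 ha)
    · rw [List.nodup_map_iff_inj_on List.nodup_range]
      intro a ha b hb hab
      refine h2 a (List.mem_range.1 ha) b (List.mem_range.1 hb) ?_
      simp only [Prod.mk.injEq] at hab
      exact ⟨Or.inl hab.1, Or.inr (Or.inl hab.2.1), Or.inr (Or.inr hab.2.2)⟩
    · intro s hs t ht hst
      obtain ⟨a, ha, rfl⟩ := List.mem_map.1 hs
      obtain ⟨b, hb, rfl⟩ := List.mem_map.1 ht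
      rw [OMEM_verts] at hst
      have h3 := h2 a (List.mem_range.1 ha) b (List.mem_range.1 hb) hst
      rw [h3]

/-! ### The formula -/

/-- the condition of the triple number `a` -/
def OMEM_F (a i j k : ℕ) : Fml :=
  .or (.not (.lt (.num 0) (.var (2 * a)))) (.eq (MEM_D i j k) (.mul (.num 2) (.var (2 * a))))

theorem OMEM_F_holds (a i j k : ℕ) (y : ℕ → ℝ) : (OMEM_F a i j k).holds y ↔
    (0 < y (2 * a) → sarea (MEM_pt y i) (MEM_pt y j) (MEM_pt y k) = y (2 * a)) := by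
  simp only [OMEM_F, Fml.holds, Tm.val, MEM_D, sarea, MEM_pt]
  constructor
  · intro h h0
    rcases h with h | h
    · exact absurd (by push_cast; exact h0) h
    · push_cast at h
      rw [h]
      ring
  · intro h
    by_cases h0 : 0 < y (2 * a)
    · right
      have h1 := h h0
      push_cast
      linarith
    · left
      push_cast
      exact h0

/-- the formula of a word -/
def OMEM_form (w : List Bool) : Fml :=
  Pool.Agent.helper39.SGE.conj ((List.range (MEM_Z w / 3)).map fun a =>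
    OMEM_F a (MEM_N w (3 * a)) (MEM_N w (3 * a + 1)) (MEM_N w (3 * a + 2)))

theorem OMEM_form_holds (w : List Bool) (y : ℕ → ℝ) : (OMEM_form w).holds y ↔
    ∀ a < MEM_Z w / 3, 0 < y (2 * a) → sarea (MEM_pt y (MEM_N w (3 * a)))
      (MEM_pt y (MEM_N w (3 * a + 1))) (MEM_pt y (MEM_N w (3 * a + 2))) = y (2 * a) := by
  unfold OMEM_form
  rw [Pool.Agent.helper39.SGE.conj_holds]
  constructor
  · intro h a ha
    exact (OMEM_F_holds _ _ _ _ _).1 (h _ (List.mem_map.2 ⟨a, List.mem_range.2 ha, rfl⟩))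
  · intro h φ hφ
    obtain ⟨a, ha, rfl⟩ := List.mem_map.1 hφ
    exact (OMEM_F_holds _ _ _ _ _).2 (h a (List.mem_range.1 ha))

theorem OMEM_sem (w : List Bool) (hs : OMEM_sys w) : OAreaUniversal (MEM_L w) ↔
    ∀ x : ℕ → ℝ, ∃ y : ℕ → ℝ, (∀ i, y (2 * i) = x (2 * i)) ∧ (OMEM_form w).holds y := by
  classical
  constructor
  · intro h x
    let A : ℕ × ℕ × ℕ → ℝ := fun t =>
      if h : ∃ a, a < MEM_Z w / 3 ∧ t = (MEM_N w (3 * a), MEM_N w (3 * a + 1), MEM_N w (3 * a + 2))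
      then (if 0 < x (2 * h.choose) then x (2 * h.choose) else 1) else 1
    have hA : ∀ a < MEM_Z w / 3, 0 < x (2 * a) →
        A (MEM_N w (3 * a), MEM_N w (3 * a + 1), MEM_N w (3 * a + 2)) = x (2 * a) := by
      intro a ha hpos
      have h1 : ∃ b, b < MEM_Z w / 3 ∧
          (MEM_N w (3 * a), MEM_N w (3 * a + 1), MEM_N w (3 * a + 2)) =
            (MEM_N w (3 * b), MEM_N w (3 * b + 1), MEM_N w (3 * b + 2)) := ⟨a, ha, rfl⟩
      have h2 : A (MEM_N w (3 * a), MEM_N w (3 * a + 1), MEM_N w (3 * a + 2)) =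
          (if 0 < x (2 * h1.choose) then x (2 * h1.choose) else 1) := dif_pos h1
      have h3 := h1.choose_spec
      have h4 := h3.2
      have h5 : a = h1.choose := hs.2 a ha _ h3.1
        ⟨Or.inl (congrArg (fun t : ℕ × ℕ × ℕ => t.1) h4),
          Or.inr (Or.inl (congrArg (fun t : ℕ × ℕ × ℕ => t.2.1) h4)),
          Or.inr (Or.inr (congrArg (fun t : ℕ × ℕ × ℕ => t.2.2) h4))⟩
      rw [h2, ← h5, if_pos hpos]
    obtain ⟨p, hp⟩ := h A (by
      intro t _
      simp only [A]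
      split_ifs with h1 h2
      · exact h2
      · exact one_pos
      · exact one_pos)
    let y : ℕ → ℝ := fun n => if n % 2 = 0 then x n else if n % 4 = 1 then (p (n / 4)).1 else
      (p (n / 4)).2
    have hy : ∀ i, MEM_pt y i = p i := by
      intro i
      have e1 : y (4 * i + 1) = (p i).1 := by
        simp only [y]
        rw [if_neg (by omega), if_pos (by omega)]
        have : (4 * i + 1) / 4 = i := by omega
        rw [this]
      have e2 : y (4 * i + 3) = (p i).2 := by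
        simp only [y]
        rw [if_neg (by omega), if_neg (by omega)]
        have : (4 * i + 3) / 4 = i := by omega
        rw [this]
      unfold MEM_pt
      rw [e1, e2]
    have hy2 : ∀ i, y (2 * i) = x (2 * i) := by
      intro i
      simp only [y]
      rw [if_pos (by omega)]
    refine ⟨y, hy2, ?_⟩
    rw [OMEM_form_holds]
    intro a ha hpos
    rw [hy2] at hpos
    rw [hy, hy, hy, hy2, ← hA a ha hpos]
    exact hp (MEM_N w (3 * a), MEM_N w (3 * a + 1), MEM_N w (3 * a + 2))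
      (List.mem_map.2 ⟨a, List.mem_range.2 ha, rfl⟩)
  · intro h A hA
    obtain ⟨y, hy1, hy2⟩ := h (fun n => A (MEM_N w (3 * (n / 2)), MEM_N w (3 * (n / 2) + 1),
      MEM_N w (3 * (n / 2) + 2)))
    rw [OMEM_form_holds] at hy2
    refine ⟨MEM_pt y, fun t ht => ?_⟩
    have h3 := hA _ ht
    obtain ⟨a, ha, rfl⟩ := List.mem_map.1 ht
    have h2 : 2 * a / 2 = a := by omega
    have h4 : y (2 * a) = A (MEM_N w (3 * a), MEM_N w (3 * a + 1), MEM_N w (3 * a + 2)) := by
      rw [hy1]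
      simp only [h2]
    have h1 := hy2 a (List.mem_range.1 ha) (by rw [h4]; exact h3)
    rw [h4] at h1
    exact h1

/-! ### Codes -/

/-- the words that are treated -/
def OMEM_ok (w : List Bool) : Prop := (MEM_E w ∧ MEM_Z w % 3 = 0) ∧ OMEM_sys w

open Classical in
/-- the reduction -/
noncomputable def OMEM_red (w : List Bool) : List Bool :=
  if OMEM_ok w then (OMEM_form w).code else []

theorem OMEM_red_spec (w : List Bool) : OTAU w = UETR (OMEM_red w) := by
  classical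
  rw [Bool.eq_iff_iff]
  unfold OTAU
  rw [decide_eq_true_iff, MEM_parse w (fun T => IsOSystem T ∧ OAreaUniversal T), OMEM_isOSystem]
  unfold OMEM_red
  by_cases h : OMEM_ok w
  · rw [if_pos h, MEM_UETR_code, OMEM_sem w h.2]
    constructor
    · exact fun h' => h'.2.2
    · exact fun h' => ⟨h.1, h.2, h'⟩
  · rw [if_neg h, MEM_UETR_nil]
    constructor
    · exact fun h' => absurd ⟨h'.1, h'.2.1⟩ h
    · exact fun h' => absurd h' (by simp)

/-! ### Polynomial time -/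

theorem OMEM_cq_sys : Cq (fun x _ => OMEM_sys x) := by
  unfold OMEM_sys
  refine Cq.and ?_ ?_
  · refine Cq.all' (P := fun x _ a => MEM_N x (3 * a) ≠ MEM_N x (3 * a + 1) ∧
      MEM_N x (3 * a + 1) ≠ MEM_N x (3 * a + 2) ∧ MEM_N x (3 * a) ≠ MEM_N x (3 * a + 2))
      MEM_cp_m ?_
    exact (Cq.ne (MEM_cp_entry0 0) (MEM_cp_entry 0 1)).and
      ((Cq.ne (MEM_cp_entry 0 1) (MEM_cp_entry 0 2)).and
        (Cq.ne (MEM_cp_entry0 0) (MEM_cp_entry 0 2)))
  · refine Cq.all' (P := fun x _ a => ∀ b < MEM_Z x / 3,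
      ((MEM_N x (3 * a) = MEM_N x (3 * b) ∨ MEM_N x (3 * a) = MEM_N x (3 * b + 1) ∨
        MEM_N x (3 * a) = MEM_N x (3 * b + 2)) ∧
      (MEM_N x (3 * a + 1) = MEM_N x (3 * b) ∨ MEM_N x (3 * a + 1) = MEM_N x (3 * b + 1) ∨
        MEM_N x (3 * a + 1) = MEM_N x (3 * b + 2)) ∧
      (MEM_N x (3 * a + 2) = MEM_N x (3 * b) ∨ MEM_N x (3 * a + 2) = MEM_N x (3 * b + 1) ∨
        MEM_N x (3 * a + 2) = MEM_N x (3 * b + 2))) → a = b) MEM_cp_m ?_
    refine Cq.all' (P := fun x v b =>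
      ((MEM_N x (3 * v 0) = MEM_N x (3 * b) ∨ MEM_N x (3 * v 0) = MEM_N x (3 * b + 1) ∨
        MEM_N x (3 * v 0) = MEM_N x (3 * b + 2)) ∧
      (MEM_N x (3 * v 0 + 1) = MEM_N x (3 * b) ∨ MEM_N x (3 * v 0 + 1) = MEM_N x (3 * b + 1) ∨
        MEM_N x (3 * v 0 + 1) = MEM_N x (3 * b + 2)) ∧
      (MEM_N x (3 * v 0 + 2) = MEM_N x (3 * b) ∨ MEM_N x (3 * v 0 + 2) = MEM_N x (3 * b + 1) ∨
        MEM_N x (3 * v 0 + 2) = MEM_N x (3 * b + 2))) → v 0 = b) MEM_cp_m ?_
    have K : ∀ {e : Fn}, Cp e → Cq (fun x v => e x v = MEM_N x (3 * v 0) ∨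
        e x v = MEM_N x (3 * v 0 + 1) ∨ e x v = MEM_N x (3 * v 0 + 2)) := fun he =>
      (Cq.eq he (MEM_cp_entry0 0)).or ((Cq.eq he (MEM_cp_entry 0 1)).or
        (Cq.eq he (MEM_cp_entry 0 2)))
    exact ((K (MEM_cp_entry0 1)).and ((K (MEM_cp_entry 1 1)).and (K (MEM_cp_entry 1 2)))).imp
      (Cq.eq (Cp.var 1) (Cp.var 0))

theorem OMEM_cq_ok : Cq (fun x _ => OMEM_ok x) :=
  (MEM_cq_E.and (Cq.eq (MEM_cp_Z.mod (Cp.const 3)) (Cp.const 0))).and OMEM_cq_sys

theorem OMEM_dp_F {a i j k : Fn} (ha : Cp a) (hi : Cp i) (hj : Cp j) (hk : Cp k) :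
    Dp (fun x v => (OMEM_F (a x v) (i x v) (j x v) (k x v)).code) := by
  have V : Dp (fun x v => (Tm.var (2 * a x v)).code) := MEM_dp_var ((Cp.const 2).mul ha)
  have N2 : Dp (fun _ _ => (Tm.num 2).code) := Dp.const _
  have N0 : Dp (fun _ _ => (Tm.num 0).code) := Dp.const _
  have L : Dp (fun x v => (Fml.lt (Tm.num 0) (Tm.var (2 * a x v))).code) :=
    ((Dp.const (letter 8)).append (N0.append V)).congr fun _ _ => rfl
  have M : Dp (fun x v => (Fml.not (Fml.lt (Tm.num 0) (Tm.var (2 * a x v)))).code) :=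
    ((Dp.const (letter 10)).append L).congr fun _ _ => rfl
  have E := MEM_dp_eq (MEM_dp_D hi hj hk) (MEM_dp_mul N2 V)
  exact ((Dp.const (letter 12)).append (M.append E)).congr fun _ _ => rfl

theorem OMEM_dp_form : Dp (fun x _ => (OMEM_form x).code) := by
  have h1 : ∀ x : List Bool, (OMEM_form x).code = ((List.range (MEM_Z x / 3)).flatMap fun a =>
      letter 11 ++ (OMEM_F a (MEM_N x (3 * a)) (MEM_N x (3 * a + 1)) (MEM_N x (3 * a + 2))).code) ++
        Pool.Agent.helper39.SGE.tru.code := by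
    intro x
    unfold OMEM_form
    rw [Pool.Agent.helper39.SGE.conj_code, List.flatMap_map]
  refine Dp.congr ?_ (fun x _ => (h1 x).symm)
  refine Dp.append ?_ (Dp.const _)
  refine Dp.forE' (w := fun x _ a => letter 11 ++ (OMEM_F a (MEM_N x (3 * a)) (MEM_N x (3 * a + 1))
    (MEM_N x (3 * a + 2))).code) MEM_cp_m ?_
  exact (Dp.const (letter 11)).append
    (OMEM_dp_F (Cp.var 0) (MEM_cp_entry0 0) (MEM_cp_entry 0 1) (MEM_cp_entry 0 2))

theorem OMEM_dp_red : Dp (fun x _ => OMEM_red x) := by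
  classical
  refine (Dp.iteP OMEM_cq_ok OMEM_dp_form (Dp.const [])).congr fun x v => ?_
  unfold OMEM_red
  split_ifs <;> rfl

theorem OMEM_isPolyTime : IsPolyTime OMEM_red := by
  obtain ⟨p, c, hp⟩ := exists_prog OMEM_dp_red (fun b => [true, b, false])
  refine isPolyTime_of_prog OMEM_red p c (fun x => ?_)
  have := hp x
  rw [bitEncode_word]
  exact this

/-- **Area universality for oriented triples reduces to `UETR`.** -/
theorem OMEM : OMEM_stmt := ⟨OMEM_red, OMEM_isPolyTime, OMEM_red_spec⟩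

end Pool.Agent.helper25.OAU
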